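import Mathlib

/-!
Matrices of determinant one over the valuation ring of a field with a valuation.
-/

set_option autoImplicit false

namespace Pool.Agent.P2a19dl

variable {K : Type*} [Field K] {Γ₀ : Type*} [LinearOrderedCommGroupWithZero Γ₀]

/-- a matrix of determinant one all of whose entries lie in the valuation ring -/
def IsSLO {ι : Type*} [Fintype ι] [DecidableEq ι] (v : Valuation K Γ₀) (M : Matrix ι ι K) : Prop :=
  M.det = 1 ∧ ∀ i j, v (M i j) ≤ 1

end Pool.Agent.P2a19dl
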