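import Pool.Agent.Lib.P2a19dl.Main

/-!
Necessity and sufficiency.
-/

set_option autoImplicit false

namespace Pool.Agent.P2a19dl

open Module Matrix Pool.Agent.P2a19db

variable {K : Type*} [Field K] {Γ₀ : Type*} [LinearOrderedCommGroupWithZero Γ₀] {v : Valuation K Γ₀}
  {n : ℕ} {a : Module.End K (Fin n → K)} {G : Subgroup ((Fin n → K) ≃ₗ[K] (Fin n → K))}

/-- the powers of the `r × r` minors of `a`, `r` the rank of `a`, exhaust the value group -/
def Exh (v : Valuation K Γ₀) {n : ℕ} (a : Module.End K (Fin n → K)) : Prop :=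
  ∀ x : K, ∃ (s t : Fin (finrank K (LinearMap.range a)) → Fin n) (m : ℕ),
    v x ≤ v ((LinearMap.toMatrix' a).submatrix s t).det ^ m

lemma n_pos (ha : ¬ IsUnit a) : 0 < n ∧ finrank K (LinearMap.range a) < n := by
  have h := rank_lt ha
  rw [finrank_fin_fun] at h
  omega

lemma r_pos (ha0 : a ≠ 0) : 0 < finrank K (LinearMap.range a) := by
  rw [Nat.pos_iff_ne_zero]
  intro h0
  exact ha0 (LinearMap.range_eq_bot.1 (Submodule.finrank_eq_zero.1 h0))

theorem nec (ha : ¬ IsUnit a) (ha0 : a ≠ 0) (hG : ∀ g ∈ G, Pres v g) (hp : IsAutPair a G) :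
    Exh v a := by
  obtain ⟨hn, hr⟩ := n_pos ha
  have hr0 := r_pos ha0
  unfold Exh
  generalize hrr : finrank K (LinearMap.range a) = r at hr hr0 ⊢
  obtain ⟨P, Q, d, hP, hQ, hA, hd0⟩ := exists_factor v hr.le a hrr.le
  have hd0 := hd0 hrr
  set A := LinearMap.toMatrix' a with hAdef
  set δ := ∏ i, d i with hδ
  have hδ0 : δ ≠ 0 := Finset.prod_ne_zero_iff.2 fun i _ => hd0 i
  have hvδ0 : v δ ≠ 0 := (Valuation.ne_zero_iff v).2 hδ0
  obtain ⟨s, t, hst⟩ := exists_minor_ge (r := r) hn hr.le hP hQ d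
  rw [← hA] at hst
  have hctl : ∀ b ∈ gen a G, Ctl v r δ (LinearMap.toMatrix' b) := by
    intro b hb
    unfold gen at hb
    induction hb using Subsemigroup.closure_induction with
    | mem x hx =>
      rcases hx with hx | ⟨g, hg, rfl⟩
      · rw [Set.mem_singleton_iff.1 hx]
        right
        refine ⟨1, P.submatrix id (Fin.castLE hr.le), diagonal d, Q.submatrix (Fin.castLE hr.le) id,
          fun i j => hP.2 _ _, fun i j => hQ.2 _ _, ?_, ?_⟩
        · rw [← ex_factor hr.le]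
          exact hA
        · rw [det_diagonal, pow_one]
      · left
        exact fun i j => int_of_pres (hG g hg) i j
    | mul x y hx hy ihx ihy =>
      have e : LinearMap.toMatrix' (x * y) = LinearMap.toMatrix' x * LinearMap.toMatrix' y :=
        LinearMap.toMatrix'_comp x y
      rw [e]
      exact Ctl.mul ihx ihy
  intro x
  by_cases hx1 : v x ≤ 1
  · exact ⟨s, t, 0, by rw [pow_zero]; exact hx1⟩
  push Not at hx1
  have hx0 : x ≠ 0 := by
    intro h
    rw [h, map_zero] at hx1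
    exact absurd hx1 (not_lt.2 zero_le)
  -- the scalar
  obtain ⟨z, hz0, hz1, hz2⟩ : ∃ z : K, z ≠ 0 ∧ 1 ≤ v z ∧ v x ≤ v z * v δ := by
    rcases le_total (v δ) 1 with h | h
    · refine ⟨x / δ, div_ne_zero hx0 hδ0, ?_, ?_⟩
      · rw [map_div₀]
        exact (one_le_div₀ (zero_lt_iff.2 hvδ0)).2 (h.trans hx1.le)
      · rw [map_div₀, div_mul_cancel₀ _ hvδ0]
    · exact ⟨x, hx0, hx1.le, le_mul_of_one_le_right' h⟩
  let g : (Fin n → K) ≃ₗ[K] (Fin n → K) := LinearEquiv.smulOfNeZero K (Fin n → K) z hz0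
  have hc : ((g : (Fin n → K) →ₗ[K] (Fin n → K)) * a : Module.End K (Fin n → K)) ∈
      (gen a ⊤ : Set (Module.End K (Fin n → K))) \ units ⊤ := by
    refine ⟨mul_mem (g_mem (Subgroup.mem_top g)) a_mem, ?_⟩
    obtain ⟨w, hw, hw0⟩ := (Submodule.ne_bot_iff _).1 (ker_ne_bot ha)
    refine not_unit_of_kernel hw0 ?_ _
    rw [Module.End.mul_apply, LinearMap.mem_ker.1 hw, map_zero]
  rw [← hp] at hc
  obtain ⟨m, hm⟩ := (hctl _ hc.1).minor s t
  have e : LinearMap.toMatrix' ((g : (Fin n → K) →ₗ[K] (Fin n → K)) * a : Module.End K (Fin n → K)) =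
      z • A := by
    have e1 : ((g : (Fin n → K) →ₗ[K] (Fin n → K)) * a : Module.End K (Fin n → K)) = z • a := by
      ext w
      rfl
    rw [e1, map_smul]
  have e3 : (z • A).submatrix s t = z • A.submatrix s t := rfl
  rw [e, e3, det_smul, Fintype.card_fin, map_mul, map_pow] at hm
  refine ⟨s, t, m, ?_⟩
  calc v x ≤ v z * v δ := hz2
    _ ≤ v z ^ r * v (A.submatrix s t).det :=
        mul_le_mul' (le_self_pow₀ hz1 hr0.ne') hst
    _ ≤ v δ ^ m := hm
    _ ≤ v (A.submatrix s t).det ^ m := pow_le_pow_left' hst m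

lemma cond_of_exh {r : ℕ} {P Q : Matrix (Fin n) (Fin n) K} {d : Fin r → K} (hr : r ≤ n)
    (hP : IsSLO v P) (hQ : IsSLO v Q) (hA : LinearMap.toMatrix' a = P * diagonal (ex n d) * Q)
    (h : ∀ x : K, ∃ (s t : Fin r → Fin n) (m : ℕ),
      v x ≤ v ((LinearMap.toMatrix' a).submatrix s t).det ^ m) (x : K) :
    ∃ m : ℕ, v x ≤ v (∏ i, d i) ^ m := by
  obtain ⟨s, t, m, hm⟩ := h x
  refine ⟨m, hm.trans (pow_le_pow_left' ?_ m)⟩
  rw [hA]
  exact minor_le hr hP.2 hQ.2 d s t

theorem suff_special (ha : ¬ IsUnit a) (ha0 : a ≠ 0)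
    (hG : ∀ g : (Fin n → K) ≃ₗ[K] (Fin n → K), Pres v g →
      LinearMap.det (g : (Fin n → K) →ₗ[K] (Fin n → K)) = 1 → g ∈ G) (h : Exh v a) :
    IsAutPair a G := by
  obtain ⟨hn, hr⟩ := n_pos ha
  have hr0 := r_pos ha0
  unfold Exh at h
  have hpair := isPair_of_mem (G := G) ha
  generalize hrr : finrank K (LinearMap.range a) = r at hr hr0 h hpair
  obtain ⟨P, Q, d, hP, hQ, hA, hd0⟩ := exists_factor v hr.le a hrr.le
  have hd0 := hd0 hrr
  have hC := cond_of_exh hr.le hP hQ hA h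
  let S : Set (Matrix (Fin n) (Fin n) K) := {M | Matrix.toLin' M ∈ gen a G}
  have hmul : ∀ x ∈ S, ∀ y ∈ S, x * y ∈ S := fun x hx y hy => mem_mul hx hy
  have hSL : ∀ P, IsSLO v P → P ∈ S := fun P hP => mem_of_SLO hG hP
  have hAS : LinearMap.toMatrix' a ∈ S := by
    change Matrix.toLin' (LinearMap.toMatrix' a) ∈ gen a G
    rw [Matrix.toLin'_toMatrix']
    exact a_mem
  have hPu : IsUnit P.det := by rw [hP.1]; exact isUnit_one
  have hQu : IsUnit Q.det := by rw [hQ.1]; exact isUnit_one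
  have hdS : diagonal (ex n d) ∈ S := by
    have e2 : P⁻¹ * (P * diagonal (ex n d) * Q) * Q⁻¹ = diagonal (ex n d) := by
      rw [Matrix.mul_assoc P, Matrix.nonsing_inv_mul_cancel_left _ _ hPu,
        Matrix.mul_nonsing_inv_cancel_right _ _ hQu]
    rw [← e2, ← hA]
    exact hmul _ (hmul _ (hSL _ hP.inv) _ hAS) _ (hSL _ hQ.inv)
  have hall : ∀ y : Fin r → K, diagonal (ex n y) ∈ S := by
    intro y
    refine T_all (v := v) (T := {y : Fin r → K | diagonal (ex n y) ∈ S}) hr0 ?_ ?_ hdS hd0 hC y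
    · intro d hd d' hd' i₀ c hc
      exact shrink_mem hr hmul hSL hd hd' i₀ hc
    · intro d hd σ
      exact perm_mem hr0 hr hmul hSL hd σ
  refine hpair fun x hx => ?_
  obtain ⟨P', Q', y, hP', hQ', hxy, -⟩ := exists_factor v hr.le x hx
  have h1 : LinearMap.toMatrix' x ∈ S := by
    rw [hxy]
    exact hmul _ (hmul _ (hSL _ hP') _ (hall y)) _ (hSL _ hQ')
  have h2 : Matrix.toLin' (LinearMap.toMatrix' x) ∈ gen a G := h1
  rw [Matrix.toLin'_toMatrix'] at h2
  exact h2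

theorem suff_trans (ha : ¬ IsUnit a) (ha0 : a ≠ 0)
    (hG : UnimTrans v G (finrank K (LinearMap.range a))) (h : Exh v a) :
    IsAutPair a G := by
  obtain ⟨hn, hr⟩ := n_pos ha
  have hr0 := r_pos ha0
  unfold Exh at h
  have hpair := isPair_of_mem (G := G) ha
  generalize hrr : finrank K (LinearMap.range a) = r at hr hr0 h hG hpair
  obtain ⟨P, Q, d, hP, hQ, hA, hd0⟩ := exists_factor v hr.le a hrr.le
  have hd0 := hd0 hrr
  have hC := cond_of_exh hr.le hP hQ hA h
  let S : Set (Matrix (Fin n) (Fin n) K) := {M | Matrix.toLin' M ∈ gen a G}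
  have hmul : ∀ x ∈ S, ∀ y ∈ S, x * y ∈ S := fun x hx y hy => mem_mul hx hy
  have hGS : ∀ g ∈ G, LinearMap.toMatrix' (g : (Fin n → K) →ₗ[K] (Fin n → K)) ∈ S := by
    intro g hg
    change Matrix.toLin' (LinearMap.toMatrix' (g : (Fin n → K) →ₗ[K] (Fin n → K))) ∈ gen a G
    rw [Matrix.toLin'_toMatrix']
    exact g_mem hg
  have hAS : LinearMap.toMatrix' a ∈ S := by
    change Matrix.toLin' (LinearMap.toMatrix' a) ∈ gen a G
    rw [Matrix.toLin'_toMatrix']
    exact a_mem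
  have hu : ∀ {P : Matrix (Fin n) (Fin n) K}, IsSLO v P →
      Unim v (P.submatrix id (Fin.castLE hr.le)) := by
    intro P hP
    exact unim_col hr.le hP.2 hP.inv.2
      (Matrix.nonsing_inv_mul _ (by rw [hP.1]; exact isUnit_one))
  have hu' : ∀ {P : Matrix (Fin n) (Fin n) K}, IsSLO v P →
      Unim v (P.submatrix (Fin.castLE hr.le) id)ᵀ := by
    intro P hP
    exact unim_row hr.le hP.2 hP.inv.2
      (Matrix.mul_nonsing_inv _ (by rw [hP.1]; exact isUnit_one))
  have hd : ∀ (X : Matrix (Fin n) (Fin r) K) (Y : Matrix (Fin r) (Fin n) K), Unim v X →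
      Unim v Yᵀ → X * diagonal d * Y ∈ S := by
    intro X Y hX hY
    obtain ⟨g, hg, hgX⟩ := hG.1 _ X (hu hP) hX
    obtain ⟨g', hg', hgY⟩ := hG.2 _ Yᵀ (hu' hQ) hY
    have hgY' : Q.submatrix (Fin.castLE hr.le) id *
        LinearMap.toMatrix' (g' : (Fin n → K) →ₗ[K] (Fin n → K)) = Y := by
      have := congrArg transpose hgY
      rw [transpose_mul, transpose_transpose, transpose_transpose, transpose_transpose] at this
      exact this
    have e : X * diagonal d * Y = LinearMap.toMatrix' (g : (Fin n → K) →ₗ[K] (Fin n → K)) *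
        LinearMap.toMatrix' a * LinearMap.toMatrix' (g' : (Fin n → K) →ₗ[K] (Fin n → K)) := by
      rw [hA, ex_factor hr.le, ← hgX, ← hgY']
      simp only [Matrix.mul_assoc]
    rw [e]
    exact hmul _ (hmul _ (hGS _ hg) _ hAS) _ (hGS _ hg')
  refine hpair fun x hx => ?_
  obtain ⟨P', Q', y, hP', hQ', hxy, -⟩ := exists_factor v hr.le x hx
  have h1 : LinearMap.toMatrix' x ∈ S := by
    rw [hxy, ex_factor hr.le]
    exact frames_all hr0 hr hmul hd hd0 hC y _ _ (hu hP') (hu' hQ')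
  have h2 : Matrix.toLin' (LinearMap.toMatrix' x) ∈ gen a G := h1
  rw [Matrix.toLin'_toMatrix'] at h2
  exact h2

lemma exh_iff (hΓ : MulArchimedean Γ₀) (hv : ∃ x, 1 < v x) :
    Exh v a ↔ ∃ s t : Fin (finrank K (LinearMap.range a)) → Fin n,
      1 < v ((LinearMap.toMatrix' a).submatrix s t).det := by
  constructor
  · intro h
    obtain ⟨x, hx⟩ := hv
    obtain ⟨s, t, m, hm⟩ := h x
    refine ⟨s, t, ?_⟩
    by_contra h1
    push Not at h1
    exact absurd (hx.trans_le hm) (not_lt.2 (pow_le_one₀ zero_le h1))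
  · rintro ⟨s, t, h⟩ x
    obtain ⟨m, hm⟩ := MulArchimedean.arch (v x) h
    exact ⟨s, t, m, hm⟩

end Pool.Agent.P2a19dl
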