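import Pool.Agent.Lib.P2a19dl.Nec

/-!
Semigroups of matrices and unimodular systems of vectors.
-/

set_option autoImplicit false

namespace Pool.Agent.P2a19dl

open Module Matrix Pool.Agent.P2a19db

variable {K : Type*} [Field K] {Γ₀ : Type*} [LinearOrderedCommGroupWithZero Γ₀] {v : Valuation K Γ₀}

/-- a matrix over the valuation ring with a left inverse over the valuation ring: its columns are a
unimodular system -/
def Unim (v : Valuation K Γ₀) {n r : ℕ} (X : Matrix (Fin n) (Fin r) K) : Prop :=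
  (∀ i j, v (X i j) ≤ 1) ∧ ∃ Z : Matrix (Fin r) (Fin n) K, (∀ i j, v (Z i j) ≤ 1) ∧ Z * X = 1

lemma sub_mul_sub {n r : ℕ} (hr : r ≤ n) (A B : Matrix (Fin n) (Fin n) K) :
    A.submatrix (Fin.castLE hr) id * B.submatrix id (Fin.castLE hr) =
      (A * B).submatrix (Fin.castLE hr) (Fin.castLE hr) := rfl

lemma unim_col {n r : ℕ} (hr : r ≤ n) {P P' : Matrix (Fin n) (Fin n) K} (hP : ∀ i j, v (P i j) ≤ 1)
    (hP' : ∀ i j, v (P' i j) ≤ 1) (h : P' * P = 1) : Unim v (P.submatrix id (Fin.castLE hr)) := by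
  refine ⟨fun i j => hP _ _, P'.submatrix (Fin.castLE hr) id, fun i j => hP' _ _, ?_⟩
  have e : P'.submatrix (Fin.castLE hr) id * P.submatrix id (Fin.castLE hr) =
      (P' * P).submatrix (Fin.castLE hr) (Fin.castLE hr) := rfl
  rw [e, h]
  exact submatrix_one _ (Fin.castLE_injective hr)

lemma unim_row {n r : ℕ} (hr : r ≤ n) {Q Q' : Matrix (Fin n) (Fin n) K} (hQ : ∀ i j, v (Q i j) ≤ 1)
    (hQ' : ∀ i j, v (Q' i j) ≤ 1) (h : Q * Q' = 1) : Unim v (Q.submatrix (Fin.castLE hr) id)ᵀ := by
  have h1 : Q'ᵀ * Qᵀ = 1 := by rw [← transpose_mul, h, transpose_one]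
  exact unim_col hr (P := Qᵀ) (P' := Q'ᵀ) (fun i j => hQ _ _) (fun i j => hQ' _ _) h1

lemma unim_mul {n r : ℕ} {X : Matrix (Fin n) (Fin r) K} (hX : Unim v X) {U U' : Matrix (Fin r) (Fin r) K}
    (hU : ∀ i j, v (U i j) ≤ 1) (hU' : ∀ i j, v (U' i j) ≤ 1) (h : U' * U = 1) : Unim v (X * U) := by
  obtain ⟨hX1, Z, hZ, hZX⟩ := hX
  refine ⟨int_mul hX1 hU, U' * Z, int_mul hU' hZ, ?_⟩
  have e : U' * Z * (X * U) = U' * (Z * X) * U := by simp only [Matrix.mul_assoc]
  rw [e, hZX, Matrix.mul_one, h]

lemma int_perm {r : ℕ} (σ : Equiv.Perm (Fin r)) :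
    ∀ i j, v ((Equiv.Perm.permMatrix K σ) i j) ≤ 1 := by
  intro i j
  rw [Equiv.Perm.permMatrix, PEquiv.toMatrix_apply]
  split_ifs
  · rw [map_one]
  · rw [map_zero]; exact zero_le

lemma perm_diag {r : ℕ} (σ : Equiv.Perm (Fin r)) (d : Fin r → K) :
    Equiv.Perm.permMatrix K σ * diagonal d * Equiv.Perm.permMatrix K σ⁻¹ = diagonal (d ∘ σ) := by
  have h2 : (Equiv.symm σ⁻¹ : Equiv.Perm (Fin r)) = σ := by
    rw [← Equiv.Perm.inv_def, inv_inv]
  rw [Matrix.mul_assoc, Equiv.Perm.permMatrix, Equiv.Perm.permMatrix, PEquiv.mul_toMatrix_toPEquiv,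
    PEquiv.toMatrix_toPEquiv_mul]
  ext i j
  rw [submatrix_apply, submatrix_apply, h2]
  simp only [id_eq]
  by_cases hij : i = j
  · subst hij
    rw [diagonal_apply_eq, diagonal_apply_eq]
    rfl
  · rw [diagonal_apply_ne _ hij, diagonal_apply_ne _ (fun h => hij (σ.injective h))]

lemma perm_inv_mul {r : ℕ} (σ : Equiv.Perm (Fin r)) :
    Equiv.Perm.permMatrix K σ⁻¹ * Equiv.Perm.permMatrix K σ = 1 := by
  have h := perm_diag (K := K) σ⁻¹ (fun _ => (1 : K))
  rw [inv_inv] at h
  have e : diagonal (fun _ : Fin r => (1 : K)) = 1 := diagonal_one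
  rw [e, Matrix.mul_one] at h
  rw [h]
  exact e

lemma exists_shrink {n r : ℕ} (hr : r < n) (i₀ : Fin r) {c : K} (hc : v c ≤ 1) :
    ∃ (Y : Matrix (Fin r) (Fin n) K) (X : Matrix (Fin n) (Fin r) K), Unim v Yᵀ ∧ Unim v X ∧
      Y * X = diagonal (fun i => if i = i₀ then c else 1) := by
  let l : Fin n := ⟨r, hr⟩
  let k : Fin n := Fin.castLE hr.le i₀
  have hkl : k ≠ l := by
    intro h
    have := congrArg Fin.val h
    simp only [k, l, Fin.val_castLE] at this
    exact absurd this i₀.2.ne
  have hc1 : v (c - 1) ≤ 1 := v.map_sub_le hc (by rw [map_one])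
  have hM : IsSLO v (transvection k l (c - 1) * transvection l k 1) :=
    slo_mul (slo_transvection hkl hc1) (slo_transvection hkl.symm (by rw [map_one]))
  have hM' : IsSLO v (transvection l k (-1) * transvection k l (-(c - 1))) :=
    slo_mul (slo_transvection hkl.symm (by rw [Valuation.map_neg, map_one]))
      (slo_transvection hkl (by rw [Valuation.map_neg]; exact hc1))
  have hMM : (transvection k l (c - 1) * transvection l k 1) *
      (transvection l k (-1) * transvection k l (-(c - 1))) = 1 := by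
    have e1 : (transvection k l (c - 1) * transvection l k 1) *
        (transvection l k (-1) * transvection k l (-(c - 1))) =
        transvection k l (c - 1) * (transvection l k 1 * transvection l k (-1)) *
          transvection k l (-(c - 1)) := by simp only [Matrix.mul_assoc]
    rw [e1, transvection_mul_transvection_same l k hkl.symm, add_neg_cancel, transvection_zero,
      Matrix.mul_one, transvection_mul_transvection_same k l hkl, add_neg_cancel, transvection_zero]
  refine ⟨(transvection k l (c - 1) * transvection l k 1).submatrix (Fin.castLE hr.le) id,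
    (1 : Matrix (Fin n) (Fin n) K).submatrix id (Fin.castLE hr.le), unim_row hr.le hM.2 hM'.2 hMM,
    unim_col hr.le (P := (1 : Matrix (Fin n) (Fin n) K)) (P' := (1 : Matrix (Fin n) (Fin n) K)) ?_ ?_
      (Matrix.mul_one _), ?_⟩
  · intro i j
    rw [Matrix.one_apply]
    split_ifs
    · rw [map_one]
    · rw [map_zero]; exact zero_le
  · intro i j
    rw [Matrix.one_apply]
    split_ifs
    · rw [map_one]
    · rw [map_zero]; exact zero_le
  · rw [sub_mul_sub]
    have e1 : transvection k l (c - 1) * transvection l k 1 =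
        1 + single k l (c - 1) + single l k 1 + single k k (c - 1) := by
      rw [transvection, transvection, add_mul, mul_add, mul_add, one_mul, one_mul, mul_one,
        single_mul_single_same, mul_one]
      abel
    rw [Matrix.mul_one, e1]
    ext i j
    have hil : l ≠ Fin.castLE hr.le i := by
      intro h
      have := congrArg Fin.val h
      simp only [l, Fin.val_castLE] at this
      exact absurd this.symm i.2.ne
    have hjl : l ≠ Fin.castLE hr.le j := by
      intro h
      have := congrArg Fin.val h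
      simp only [l, Fin.val_castLE] at this
      exact absurd this.symm j.2.ne
    simp only [submatrix_apply, Matrix.add_apply, Matrix.one_apply, Matrix.single_apply,
      diagonal_apply]
    rw [if_neg (fun h : k = Fin.castLE hr.le i ∧ l = Fin.castLE hr.le j => hjl h.2),
      if_neg (fun h : l = Fin.castLE hr.le i ∧ k = Fin.castLE hr.le j => hil h.1)]
    by_cases hij : i = j
    · subst hij
      rw [if_pos rfl, if_pos rfl]
      by_cases hi : i = i₀
      · subst hi
        rw [if_pos ⟨rfl, rfl⟩, if_pos rfl]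
        ring
      · rw [if_neg (fun h : k = Fin.castLE hr.le i ∧ k = Fin.castLE hr.le i =>
          hi (Fin.castLE_injective hr.le h.1).symm), if_neg hi]
        ring
    · rw [if_neg (fun h => hij (Fin.castLE_injective hr.le h)), if_neg hij,
        if_neg (fun h : k = Fin.castLE hr.le i ∧ k = Fin.castLE hr.le j =>
          hij (Fin.castLE_injective hr.le (h.1.symm.trans h.2)))]
      ring

/-- Every matrix `X D Y` with `X`, `Y` unimodular and `D` diagonal of size `r` is in the semigroup. -/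
theorem frames_all {n r : ℕ} {S : Set (Matrix (Fin n) (Fin n) K)} (hr0 : 0 < r) (hr : r < n)
    (hmul : ∀ x ∈ S, ∀ y ∈ S, x * y ∈ S) {d : Fin r → K}
    (hd : ∀ (X : Matrix (Fin n) (Fin r) K) (Y : Matrix (Fin r) (Fin n) K), Unim v X → Unim v Yᵀ →
      X * diagonal d * Y ∈ S) (hd0 : ∀ i, d i ≠ 0)
    (hC : ∀ x : K, ∃ m : ℕ, v x ≤ v (∏ i, d i) ^ m) (y : Fin r → K)
    (X : Matrix (Fin n) (Fin r) K) (Y : Matrix (Fin r) (Fin n) K) (hX : Unim v X) (hY : Unim v Yᵀ) :
    X * diagonal y * Y ∈ S := by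
  let T : Set (Fin r → K) := {d | ∀ (X : Matrix (Fin n) (Fin r) K) (Y : Matrix (Fin r) (Fin n) K),
    Unim v X → Unim v Yᵀ → X * diagonal d * Y ∈ S}
  have h1 : ∀ d ∈ T, ∀ d' ∈ T, ∀ (i₀ : Fin r) (c : K), v c ≤ 1 →
      (fun i => d i * (if i = i₀ then c else 1) * d' i) ∈ T := by
    intro d hd d' hd' i₀ c hc X Y hX hY
    obtain ⟨Y', X', hY', hX', h⟩ := exists_shrink hr i₀ hc
    have e1 : (diagonal (fun i => d i * (if i = i₀ then c else 1) * d' i) : Matrix (Fin r) (Fin r) K) =
        diagonal d * (Y' * X') * diagonal d' := by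
      rw [h, diagonal_mul_diagonal, diagonal_mul_diagonal]
    have e2 : X * diagonal (fun i => d i * (if i = i₀ then c else 1) * d' i) * Y =
        (X * diagonal d * Y') * (X' * diagonal d' * Y) := by
      rw [e1]
      simp only [Matrix.mul_assoc]
    rw [e2]
    exact hmul _ (hd X Y' hX hY') _ (hd' X' Y hX' hY)
  have h2 : ∀ d ∈ T, ∀ σ : Equiv.Perm (Fin r), d ∘ σ ∈ T := by
    intro d hd σ X Y hX hY
    have e : X * diagonal (d ∘ σ) * Y = (X * Equiv.Perm.permMatrix K σ) * diagonal d *
        (Equiv.Perm.permMatrix K σ⁻¹ * Y) := by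
      rw [← perm_diag]
      simp only [Matrix.mul_assoc]
    rw [e]
    refine hd _ _ (unim_mul hX (int_perm σ) (int_perm σ⁻¹) (perm_inv_mul σ)) ?_
    rw [transpose_mul]
    refine unim_mul hY (U' := (Equiv.Perm.permMatrix K σ)ᵀ) (fun i j => int_perm _ _ _)
      (fun i j => int_perm _ _ _) ?_
    rw [← transpose_mul, perm_inv_mul, transpose_one]
  exact T_all hr0 h1 h2 (d := d) hd hd0 hC y X Y hX hY

end Pool.Agent.P2a19dl
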