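import Pool.Agent.Lib.P2a19dl.Defs

/-!
# Smith normal form over a valuation ring, with factors of determinant one
-/

set_option autoImplicit false

namespace Pool.Agent.P2a19dl

open Matrix

variable {K : Type*} [Field K] {Γ₀ : Type*} [LinearOrderedCommGroupWithZero Γ₀]

section closure

variable {ι : Type*} [Fintype ι] [DecidableEq ι] {v : Valuation K Γ₀}

/-- An integral matrix has an integral determinant. -/
theorem val_det_le {M : Matrix ι ι K} (h : ∀ i j, v (M i j) ≤ 1) : v M.det ≤ 1 := by
  rw [Matrix.det_apply]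
  refine Valuation.map_sum_le v fun σ _ => ?_
  have h1 : v (∏ i, M (σ i) i) ≤ 1 := by
    rw [map_prod]
    exact Finset.prod_le_one' fun i _ => h _ _
  rcases Int.units_eq_one_or (Equiv.Perm.sign σ) with hs | hs
  · rw [hs, one_smul]
    exact h1
  · rw [hs, Units.neg_smul, one_smul, Valuation.map_neg]
    exact h1

omit [DecidableEq ι] in
/-- Entries of a product of integral matrices. -/
theorem val_mul_le {M N : Matrix ι ι K} (h : ∀ i j, v (M i j) ≤ 1) (h' : ∀ i j, v (N i j) ≤ 1)
    (i j : ι) : v ((M * N) i j) ≤ 1 := by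
  rw [Matrix.mul_apply]
  refine Valuation.map_sum_le v fun k _ => ?_
  rw [map_mul]
  exact mul_le_one' (h _ _) (h' _ _)

omit [Fintype ι] in
/-- Entries of the identity matrix. -/
theorem val_one_le (i j : ι) : v ((1 : Matrix ι ι K) i j) ≤ 1 := by
  rw [Matrix.one_apply]
  split_ifs
  · rw [map_one]
  · rw [map_zero]
    exact zero_le_one

/-- Entries of the adjugate of an integral matrix. -/
theorem val_adjugate_le {M : Matrix ι ι K} (h : ∀ i j, v (M i j) ≤ 1) (i j : ι) :
    v (M.adjugate i j) ≤ 1 := by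
  rw [Matrix.adjugate_apply]
  refine val_det_le fun a b => ?_
  rw [Matrix.updateRow_apply]
  split_ifs
  · rw [Pi.single_apply]
    split_ifs
    · rw [map_one]
    · rw [map_zero]
      exact zero_le_one
  · exact h a b

theorem IsSLO.one : IsSLO v (1 : Matrix ι ι K) := ⟨Matrix.det_one, fun i j => val_one_le i j⟩

theorem IsSLO.mul {M N : Matrix ι ι K} (h : IsSLO v M) (h' : IsSLO v N) : IsSLO v (M * N) :=
  ⟨by rw [Matrix.det_mul, h.1, h'.1, one_mul], fun i j => val_mul_le h.2 h'.2 i j⟩

omit [Fintype ι] in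
/-- Entries of a transvection. -/
theorem val_transvection_le {i j : ι} {c : K} (hc : v c ≤ 1) (a b : ι) :
    v (Matrix.transvection i j c a b) ≤ 1 := by
  rw [Matrix.transvection, Matrix.add_apply]
  refine Valuation.map_add_le v (val_one_le a b) ?_
  rw [Matrix.single_apply]
  split_ifs
  · exact hc
  · rw [map_zero]
    exact zero_le_one

theorem IsSLO.transvection {i j : ι} (hij : i ≠ j) {c : K} (hc : v c ≤ 1) :
    IsSLO v (Matrix.transvection i j c) :=
  ⟨Matrix.det_transvection_of_ne i j hij c, fun a b => val_transvection_le hc a b⟩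

theorem IsSLO.inv {M : Matrix ι ι K} (h : IsSLO v M) : IsSLO v M⁻¹ := by
  constructor
  · rw [Matrix.det_nonsing_inv, h.1, Ring.inverse_one]
  · intro i j
    rw [Matrix.inv_def, h.1, Ring.inverse_one, one_smul]
    exact val_adjugate_le h.2 i j

/-! ### Matrices invertible over the valuation ring -/

/-- An integral matrix whose determinant is a unit of the valuation ring. -/
def GLO (v : Valuation K Γ₀) (M : Matrix ι ι K) : Prop := v M.det = 1 ∧ ∀ i j, v (M i j) ≤ 1

theorem IsSLO.glo {M : Matrix ι ι K} (h : IsSLO v M) : GLO v M := ⟨by rw [h.1, map_one], h.2⟩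

theorem GLO.det_ne {M : Matrix ι ι K} (h : GLO v M) : M.det ≠ 0 := by
  intro h0
  have h1 := h.1
  rw [h0, map_zero] at h1
  exact zero_ne_one h1

theorem GLO.isUnit {M : Matrix ι ι K} (h : GLO v M) : IsUnit M.det := isUnit_iff_ne_zero.2 h.det_ne

theorem GLO.mul {M N : Matrix ι ι K} (h : GLO v M) (h' : GLO v N) : GLO v (M * N) :=
  ⟨by rw [Matrix.det_mul, map_mul, h.1, h'.1, one_mul], fun i j => val_mul_le h.2 h'.2 i j⟩

theorem GLO.inv {M : Matrix ι ι K} (h : GLO v M) : GLO v M⁻¹ := by
  have h1 : v (M.det)⁻¹ = 1 := by rw [map_inv₀, h.1, inv_one]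
  constructor
  · rw [Matrix.det_nonsing_inv, Ring.inverse_eq_inv']
    exact h1
  · intro i j
    rw [Matrix.inv_def, Ring.inverse_eq_inv', Matrix.smul_apply, smul_eq_mul, map_mul, h1, one_mul]
    exact val_adjugate_le h.2 i j

theorem GLO.list_prod : ∀ (L : List (Matrix ι ι K)), (∀ M ∈ L, GLO v M) → GLO v L.prod
  | [], _ => by
    rw [List.prod_nil]
    exact IsSLO.one.glo
  | M :: L, h => by
    rw [List.prod_cons]
    exact (h M (by simp)).mul (GLO.list_prod L fun N hN => h N (by simp [hN]))

theorem GLO.perm (σ : Equiv.Perm ι) : GLO v (σ.toPEquiv.toMatrix : Matrix ι ι K) := by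
  constructor
  · have h : (σ.toPEquiv.toMatrix : Matrix ι ι K).det = ((Equiv.Perm.sign σ : ℤ) : K) :=
      Matrix.det_permutation σ
    rw [h]
    rcases Int.units_eq_one_or (Equiv.Perm.sign σ) with hs | hs
    · rw [hs]
      simp
    · rw [hs]
      simp
  · intro i j
    rw [PEquiv.toMatrix_apply]
    split_ifs
    · rw [map_one]
    · rw [map_zero]
      exact zero_le_one

theorem GLO.diag {s : ι → K} (hs : ∀ i, v (s i) = 1) : GLO v (Matrix.diagonal s) := by
  constructor
  · rw [Matrix.det_diagonal, map_prod]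
    exact Finset.prod_eq_one fun i _ => hs i
  · intro i j
    rw [Matrix.diagonal_apply]
    split_ifs
    · exact (hs i).le
    · rw [map_zero]
      exact zero_le_one

/-- The matrix is a product of an invertible integral, a diagonal and an invertible integral
matrix. -/
def Good (v : Valuation K Γ₀) (M : Matrix ι ι K) : Prop :=
  ∃ (P Q : Matrix ι ι K) (D : ι → K), GLO v P ∧ GLO v Q ∧ M = P * Matrix.diagonal D * Q

theorem Good.of_mul {M P Q : Matrix ι ι K} (hP : GLO v P) (hQ : GLO v Q)
    (h : Good v (P * M * Q)) : Good v M := by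
  obtain ⟨P', Q', D, h1, h2, h3⟩ := h
  refine ⟨P⁻¹ * P', Q' * Q⁻¹, D, hP.inv.mul h1, h2.mul hQ.inv, ?_⟩
  have h4 : P⁻¹ * (P * M * Q) * Q⁻¹ = M := by
    rw [Matrix.mul_assoc P M Q, Matrix.nonsing_inv_mul_cancel_left _ _ hP.isUnit,
      Matrix.mul_nonsing_inv_cancel_right _ _ hQ.isUnit]
  rw [← h4, h3]
  simp only [Matrix.mul_assoc]

end closure

section main

variable {v : Valuation K Γ₀}

theorem GLO.blocks {r : ℕ} {P : Matrix (Fin r) (Fin r) K} (h : GLO v P) :
    GLO v (Matrix.fromBlocks P 0 0 (1 : Matrix Unit Unit K)) := by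
  constructor
  · rw [Matrix.det_fromBlocks_zero₂₁, Matrix.det_one, mul_one]
    exact h.1
  · rintro (i | i) (j | j)
    · exact h.2 i j
    · simp
    · simp
    · simp

open Matrix.Pivot Sum in
/-- The inductive step. -/
theorem good_sum {r : ℕ} (IH : ∀ M : Matrix (Fin r) (Fin r) K, Good v M)
    (M : Matrix (Fin r ⊕ Unit) (Fin r ⊕ Unit) K) : Good v M := by
  by_cases hM : M = 0
  · refine ⟨1, 1, 0, IsSLO.one.glo, IsSLO.one.glo, ?_⟩
    rw [hM]
    simp
  obtain ⟨⟨i0, j0⟩, hmax⟩ := Finite.exists_max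
    (fun p : (Fin r ⊕ Unit) × (Fin r ⊕ Unit) => v (M p.1 p.2))
  set l : Fin r ⊕ Unit := inr () with hl
  have h0 : M i0 j0 ≠ 0 := by
    intro h0
    apply hM
    ext i j
    have h1 := hmax (i, j)
    simp only at h1
    rw [h0, map_zero] at h1
    exact (Valuation.zero_iff v).1 (le_zero_iff.1 h1)
  set M' := M.submatrix (Equiv.swap i0 l) (Equiv.swap j0 l) with hM'
  have hll : M' l l = M i0 j0 := by
    rw [hM', Matrix.submatrix_apply, Equiv.swap_apply_right, Equiv.swap_apply_right]
  have hne : M' (inr ()) (inr ()) ≠ 0 := by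
    rw [← hl, hll]
    exact h0
  have hle : ∀ i j, v (M' i j) ≤ v (M' l l) := by
    intro i j
    rw [hll]
    exact hmax (Equiv.swap i0 l i, Equiv.swap j0 l j)
  have hquot : ∀ i j, v (-M' i j / M' l l) ≤ 1 := by
    intro i j
    rw [map_div₀, Valuation.map_neg]
    exact div_le_one_of_le₀ (hle i j) zero_le
  have hL : GLO v (listTransvecCol M').prod := by
    refine GLO.list_prod _ fun N hN => ?_
    rw [listTransvecCol, List.mem_ofFn] at hN
    obtain ⟨i, rfl⟩ := hN
    exact (IsSLO.transvection (by simp) (hquot _ _)).glo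
  have hR : GLO v (listTransvecRow M').prod := by
    refine GLO.list_prod _ fun N hN => ?_
    rw [listTransvecRow, List.mem_ofFn] at hN
    obtain ⟨i, rfl⟩ := hN
    exact (IsSLO.transvection (by simp) (hquot _ _)).glo
  have hgood : Good v ((listTransvecCol M').prod * M' * (listTransvecRow M').prod) := by
    have hblk := isTwoBlockDiagonal_listTransvecCol_mul_mul_listTransvecRow M' hne
    set N := (listTransvecCol M').prod * M' * (listTransvecRow M').prod with hN
    obtain ⟨P0, Q0, D0, hP0, hQ0, h0⟩ := IH N.toBlocks₁₁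
    refine ⟨Matrix.fromBlocks P0 0 0 1, Matrix.fromBlocks Q0 0 0 1,
      Sum.elim D0 (fun _ => N (inr ()) (inr ())), hP0.blocks, hQ0.blocks, ?_⟩
    have h5 : N = Matrix.fromBlocks N.toBlocks₁₁ 0 0
        (Matrix.diagonal fun _ => N (inr ()) (inr ())) := by
      conv_lhs => rw [← Matrix.fromBlocks_toBlocks N, hblk.1, hblk.2]
      rfl
    have h6 : Matrix.diagonal (Sum.elim D0 (fun _ : Unit => N (inr ()) (inr ()))) =
        Matrix.fromBlocks (Matrix.diagonal D0) 0 0
          (Matrix.diagonal fun _ => N (inr ()) (inr ())) := by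
      rw [Matrix.fromBlocks_diagonal]
    rw [h6, Matrix.fromBlocks_multiply, Matrix.fromBlocks_multiply]
    conv_lhs => rw [h5, h0]
    simp
  have hgood' : Good v M' := hgood.of_mul hL hR
  refine Good.of_mul (GLO.perm (Equiv.swap i0 l)) (GLO.perm (Equiv.swap j0 l)) ?_
  have h7 : ((Equiv.swap i0 l).toPEquiv.toMatrix : Matrix _ _ K) * M *
      ((Equiv.swap j0 l).toPEquiv.toMatrix : Matrix _ _ K) = M' := by
    rw [PEquiv.toMatrix_toPEquiv_mul, PEquiv.mul_toMatrix_toPEquiv, Equiv.symm_swap]
    rfl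
  rw [h7]
  exact hgood'

theorem good_fin : ∀ (n : ℕ) (M : Matrix (Fin n) (Fin n) K), Good v M
  | 0, M => by
    refine ⟨1, 1, 0, IsSLO.one.glo, IsSLO.one.glo, ?_⟩
    ext i
    exact i.elim0
  | r + 1, M => by
    have e : Fin r ⊕ Unit ≃ Fin (r + 1) := Fintype.equivOfCardEq (by simp)
    obtain ⟨P, Q, D, hP, hQ, h⟩ := good_sum (v := v) (good_fin r) (M.submatrix e e)
    refine ⟨P.submatrix e.symm e.symm, Q.submatrix e.symm e.symm, D ∘ e.symm, ?_, ?_, ?_⟩
    · exact ⟨by rw [Matrix.det_submatrix_equiv_self]; exact hP.1, fun i j => hP.2 _ _⟩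
    · exact ⟨by rw [Matrix.det_submatrix_equiv_self]; exact hQ.1, fun i j => hQ.2 _ _⟩
    · have h1 : (M.submatrix e e).submatrix e.symm e.symm = M := by
        rw [Matrix.submatrix_submatrix]
        simp
      have h2 : Matrix.diagonal (D ∘ e.symm) = (Matrix.diagonal D).submatrix e.symm e.symm := by
        rw [Matrix.submatrix_diagonal_equiv]
      rw [h2, Matrix.submatrix_mul_equiv, Matrix.submatrix_mul_equiv, ← h, h1]

/-- Smith normal form with sorted diagonal, invertible factors. -/
theorem smith_glo (v : Valuation K Γ₀) {n : ℕ} (A : Matrix (Fin n) (Fin n) K) :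
    ∃ (P Q : Matrix (Fin n) (Fin n) K) (D : Fin n → K), GLO v P ∧ GLO v Q ∧
      (∀ i : Fin n, D i ≠ 0 ↔ (i : ℕ) < A.rank) ∧ A = P * Matrix.diagonal D * Q := by
  classical
  obtain ⟨P, Q, D, hP, hQ, h⟩ := good_fin (v := v) n A
  have hr : A.rank = Fintype.card {i // D i ≠ 0} := by
    rw [h, Matrix.rank_mul_eq_left_of_isUnit_det _ _ hQ.isUnit,
      Matrix.rank_mul_eq_right_of_isUnit_det _ _ hP.isUnit, Matrix.rank_diagonal]
  have hrn : A.rank ≤ n := by
    have := A.rank_le_card_height
    simpa using this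
  have hc : Fintype.card {i : Fin n // (i : ℕ) < A.rank} = Fintype.card {i // D i ≠ 0} := by
    rw [← hr]
    have h1 : Fintype.card {i : Fin n // (i : ℕ) < A.rank} =
        (Finset.univ.filter fun i : Fin n => (i : ℕ) < A.rank).card := Fintype.card_subtype _
    rw [h1, Fin.card_filter_val_lt, min_eq_right hrn]
  let e := Fintype.equivOfCardEq hc
  let σ : Equiv.Perm (Fin n) := e.extendSubtype
  refine ⟨P * (σ.symm.toPEquiv.toMatrix : Matrix _ _ K), (σ.toPEquiv.toMatrix : Matrix _ _ K) * Q,
    D ∘ σ, hP.mul (GLO.perm _), (GLO.perm _).mul hQ, ?_, ?_⟩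
  · intro i
    constructor
    · intro hi
      by_contra hlt
      exact e.extendSubtype_not_mem i hlt hi
    · intro hi
      exact e.extendSubtype_mem i hi
  · have h2 : (σ.symm.toPEquiv.toMatrix : Matrix (Fin n) (Fin n) K) * Matrix.diagonal (D ∘ σ) *
        (σ.toPEquiv.toMatrix : Matrix (Fin n) (Fin n) K) = Matrix.diagonal D := by
      rw [PEquiv.toMatrix_toPEquiv_mul, PEquiv.mul_toMatrix_toPEquiv, Matrix.submatrix_submatrix]
      simp only [Function.comp_id, Function.id_comp]
      rw [Matrix.submatrix_diagonal_equiv]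
      congr 1
      funext i
      simp
    calc A = P * Matrix.diagonal D * Q := h
      _ = _ := by
        rw [← h2]
        simp only [Matrix.mul_assoc]

/-- Smith normal form over a valuation ring, with factors of determinant one. -/
theorem smith {K : Type*} [Field K] {Γ₀ : Type*} [LinearOrderedCommGroupWithZero Γ₀]
    (v : Valuation K Γ₀) {n : ℕ} (A : Matrix (Fin n) (Fin n) K) :
    ∃ (P Q : Matrix (Fin n) (Fin n) K) (D : Fin n → K), IsSLO v P ∧ IsSLO v Q ∧
      (∀ i : Fin n, D i ≠ 0 ↔ (i : ℕ) < A.rank) ∧ A = P * Matrix.diagonal D * Q := by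
  obtain ⟨P, Q, D, hP, hQ, hD, h⟩ := smith_glo v A
  rcases n with _ | n
  · exact ⟨P, Q, D, ⟨Matrix.det_isEmpty, hP.2⟩, ⟨Matrix.det_isEmpty, hQ.2⟩, hD, h⟩
  have hE : ∀ u : K, (Matrix.diagonal (Function.update (1 : Fin (n + 1) → K) 0 u)).det = u := by
    intro u
    rw [Matrix.det_diagonal, Fin.prod_univ_succ]
    simp
  have hEv : ∀ u : K, v u = 1 →
      GLO v (Matrix.diagonal (Function.update (1 : Fin (n + 1) → K) 0 u)) := by
    intro u hu
    refine GLO.diag fun i => ?_
    by_cases hi : i = 0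
    · subst hi
      rw [Function.update_self]
      exact hu
    · rw [Function.update_of_ne hi, Pi.one_apply, map_one]
  have hPi : v (P.det)⁻¹ = 1 := by rw [map_inv₀, hP.1, inv_one]
  have hQi : v (Q.det)⁻¹ = 1 := by rw [map_inv₀, hQ.1, inv_one]
  refine ⟨P * Matrix.diagonal (Function.update (1 : Fin (n + 1) → K) 0 (P.det)⁻¹),
    Matrix.diagonal (Function.update (1 : Fin (n + 1) → K) 0 (Q.det)⁻¹) * Q,
    fun i => (Function.update (1 : Fin (n + 1) → K) 0 P.det i) * D i *
      (Function.update (1 : Fin (n + 1) → K) 0 Q.det i), ⟨?_, (hP.mul (hEv _ hPi)).2⟩,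
    ⟨?_, ((hEv _ hQi).mul hQ).2⟩, ?_, ?_⟩
  · rw [Matrix.det_mul, hE, mul_inv_cancel₀ hP.det_ne]
  · rw [Matrix.det_mul, hE, inv_mul_cancel₀ hQ.det_ne]
  · intro i
    rw [← hD i]
    beta_reduce
    by_cases hi : i = 0
    · subst hi
      rw [Function.update_self, Function.update_self]
      constructor
      · intro h1 h2
        apply h1
        rw [h2, mul_zero, zero_mul]
      · intro h1
        exact mul_ne_zero (mul_ne_zero hP.det_ne h1) hQ.det_ne
    · rw [Function.update_of_ne hi, Function.update_of_ne hi, Pi.one_apply, one_mul, mul_one]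
  · have h1 : Matrix.diagonal (Function.update (1 : Fin (n + 1) → K) 0 (P.det)⁻¹) *
        Matrix.diagonal (fun i => (Function.update (1 : Fin (n + 1) → K) 0 P.det i) * D i *
          (Function.update (1 : Fin (n + 1) → K) 0 Q.det i)) *
        Matrix.diagonal (Function.update (1 : Fin (n + 1) → K) 0 (Q.det)⁻¹) =
        Matrix.diagonal D := by
      rw [Matrix.diagonal_mul_diagonal, Matrix.diagonal_mul_diagonal]
      congr 1
      funext i
      by_cases hi : i = 0
      · subst hi
        rw [Function.update_self, Function.update_self, Function.update_self, Function.update_self]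
        have a := hP.det_ne
        have b := hQ.det_ne
        field_simp
      · rw [Function.update_of_ne hi, Function.update_of_ne hi, Function.update_of_ne hi,
          Function.update_of_ne hi]
        simp
    calc A = P * Matrix.diagonal D * Q := h
      _ = _ := by
        rw [← h1]
        simp only [Matrix.mul_assoc]

end main

end Pool.Agent.P2a19dl
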