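import Pool.Agent.Lib.P2a19dl.Frames
import Pool.Agent.Lib.P2a19dl.Smith

/-!
The criterion for groups of automorphisms of the standard lattice over a valuation ring.
-/

set_option autoImplicit false

namespace Pool.Agent.P2a19dl

open Module Matrix Pool.Agent.P2a19db

section general

variable {F V : Type*} [Field F] [AddCommGroup V] [Module F V] [FiniteDimensional F V]

lemma ker_ne_bot {a : Module.End F V} (ha : ¬ IsUnit a) : LinearMap.ker a ≠ ⊥ := by
  intro h
  exact ha ((LinearMap.isUnit_iff_ker_eq_bot a).2 h)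

lemma rank_lt {a : Module.End F V} (ha : ¬ IsUnit a) :
    finrank F (LinearMap.range a) < finrank F V := by
  have a2 := LinearMap.finrank_range_add_finrank_ker a
  have : 0 < finrank F (LinearMap.ker a) := by
    rw [Nat.pos_iff_ne_zero]
    intro h0
    exact ker_ne_bot ha (Submodule.finrank_eq_zero.1 h0)
  omega

lemma isPair_of_mem {a : Module.End F V} (ha : ¬ IsUnit a) {G : Subgroup (V ≃ₗ[F] V)}
    (h : ∀ x : Module.End F V, finrank F (LinearMap.range x) ≤ finrank F (LinearMap.range a) →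
      x ∈ gen a G) : IsAutPair a G := by
  have hK := ker_ne_bot ha
  have hlt := rank_lt ha
  have hT : ∀ t ∈ TT F V (finrank F (LinearMap.range a)),
      finrank F (LinearMap.range t) ≤ finrank F (LinearMap.range a) := by
    intro t ht
    unfold TT at ht
    induction ht using Subsemigroup.closure_induction with
    | mem x hx => exact le_of_eq hx
    | mul x y hx hy ihx ihy =>
      refine le_trans (Submodule.finrank_mono ?_) ihx
      rintro _ ⟨v, rfl⟩
      exact ⟨y v, rfl⟩
  unfold IsAutPair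
  apply Set.Subset.antisymm
  · rintro x ⟨hx, hx'⟩
    obtain ⟨v, hv, hxv⟩ := exists_ker_of_mem hK hx hx'
    exact ⟨gen_mono le_top hx, not_unit_of_kernel hv hxv _⟩
  · rintro x ⟨hx, hx'⟩
    rcases gen_top_sub hx with h1 | h1
    · exact absurd h1 hx'
    · have h2 := hT x h1
      have h3 : LinearMap.ker x ≠ ⊥ := by
        intro h0
        have a2 := LinearMap.finrank_range_add_finrank_ker x
        rw [h0, finrank_bot] at a2
        omega
      obtain ⟨v, hv, hv0⟩ := (Submodule.ne_bot_iff _).1 h3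
      exact ⟨h x h2, not_unit_of_kernel hv0 hv _⟩

end general

variable {K : Type*} [Field K] {Γ₀ : Type*} [LinearOrderedCommGroupWithZero Γ₀] {v : Valuation K Γ₀}
  {n : ℕ}

/-- the linear automorphism `g` of `K ^ n` maps `O ^ n` into itself, where `O` is the valuation ring
of `v` -/
def Pres (v : Valuation K Γ₀) {n : ℕ} (g : (Fin n → K) ≃ₗ[K] (Fin n → K)) : Prop :=
  ∀ x : Fin n → K, (∀ i, v (x i) ≤ 1) → ∀ i, v (g x i) ≤ 1

/-- `G` and the group of the transposes of its elements are transitive on the unimodular systems of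
`r` vectors of `O ^ n` -/
def UnimTrans (v : Valuation K Γ₀) {n : ℕ} (G : Subgroup ((Fin n → K) ≃ₗ[K] (Fin n → K)))
    (r : ℕ) : Prop :=
  (∀ X X' : Matrix (Fin n) (Fin r) K, Unim v X → Unim v X' →
    ∃ g ∈ G, LinearMap.toMatrix' (g : (Fin n → K) →ₗ[K] (Fin n → K)) * X = X') ∧
  (∀ X X' : Matrix (Fin n) (Fin r) K, Unim v X → Unim v X' →
    ∃ g ∈ G, (LinearMap.toMatrix' (g : (Fin n → K) →ₗ[K] (Fin n → K)))ᵀ * X = X')

lemma int_of_pres {g : (Fin n → K) ≃ₗ[K] (Fin n → K)} (h : Pres v g) (i j : Fin n) :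
    v (LinearMap.toMatrix' (g : (Fin n → K) →ₗ[K] (Fin n → K)) i j) ≤ 1 := by
  rw [LinearMap.toMatrix'_apply]
  refine h _ (fun k => ?_) i
  rw [Pi.single_apply]
  split_ifs
  · rw [map_one]
  · rw [map_zero]; exact zero_le

lemma rank_eq (x : Module.End K (Fin n → K)) :
    (LinearMap.toMatrix' x).rank = finrank K (LinearMap.range x) := by
  unfold Matrix.rank
  have : (LinearMap.toMatrix' x).mulVecLin = x := by
    rw [← Matrix.toLin'_apply']
    exact Matrix.toLin'_toMatrix' x
  rw [this]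

lemma ex_of_supp {r : ℕ} (hr : r ≤ n) (D : Fin n → K) (h : ∀ i : Fin n, r ≤ (i : ℕ) → D i = 0) :
    D = ex n (fun i : Fin r => D (Fin.castLE hr i)) := by
  funext i
  unfold ex
  by_cases hi : (i : ℕ) < r
  · rw [dif_pos hi]
    rfl
  · rw [dif_neg hi]
    exact h i (not_lt.1 hi)

/-- the factorisation of a matrix of rank `r` -/
lemma exists_factor (v : Valuation K Γ₀) {r : ℕ} (hr : r ≤ n) (x : Module.End K (Fin n → K))
    (hx : finrank K (LinearMap.range x) ≤ r) :
    ∃ (P Q : Matrix (Fin n) (Fin n) K) (d : Fin r → K), IsSLO v P ∧ IsSLO v Q ∧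
      LinearMap.toMatrix' x = P * diagonal (ex n d) * Q ∧
      (finrank K (LinearMap.range x) = r → ∀ i, d i ≠ 0) := by
  obtain ⟨P, Q, D, hP, hQ, hD, h⟩ := smith v (LinearMap.toMatrix' x)
  rw [rank_eq] at hD
  refine ⟨P, Q, fun i : Fin r => D (Fin.castLE hr i), hP, hQ, ?_, ?_⟩
  · rw [← ex_of_supp hr D]
    · exact h
    · intro i hi
      by_contra h0
      have := (hD i).1 h0
      omega
  · intro hr' i
    rw [hD, hr']
    exact i.2

section

variable {a : Module.End K (Fin n → K)} {G : Subgroup ((Fin n → K) ≃ₗ[K] (Fin n → K))} {r : ℕ}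

lemma mem_mul {M N : Matrix (Fin n) (Fin n) K} (hM : Matrix.toLin' M ∈ gen a G)
    (hN : Matrix.toLin' N ∈ gen a G) : Matrix.toLin' (M * N) ∈ gen a G := by
  rw [Matrix.toLin'_mul]
  exact mul_mem hM hN

lemma mem_of_SLO (hG : ∀ g : (Fin n → K) ≃ₗ[K] (Fin n → K), Pres v g →
      LinearMap.det (g : (Fin n → K) →ₗ[K] (Fin n → K)) = 1 → g ∈ G)
    {P : Matrix (Fin n) (Fin n) K} (hP : IsSLO v P) : Matrix.toLin' P ∈ gen a G := by
  have hu : IsUnit P.det := by rw [hP.1]; exact isUnit_one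
  let g : (Fin n → K) ≃ₗ[K] (Fin n → K) := LinearEquiv.ofLinearMap (Matrix.toLin' P)
    (Matrix.toLin' P⁻¹) (by rw [← Matrix.toLin'_mul, Matrix.mul_nonsing_inv _ hu, Matrix.toLin'_one])
    (by rw [← Matrix.toLin'_mul, Matrix.nonsing_inv_mul _ hu, Matrix.toLin'_one])
  have hg : (g : (Fin n → K) →ₗ[K] (Fin n → K)) = Matrix.toLin' P := rfl
  rw [← hg]
  refine g_mem (hG g ?_ ?_)
  · intro x hx i
    change v (Matrix.toLin' P x i) ≤ 1
    rw [Matrix.toLin'_apply, Matrix.mulVec, dotProduct]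
    refine v.map_sum_le fun k _ => ?_
    rw [map_mul]
    exact mul_le_one' (hP.2 i k) (hx k)
  · rw [hg, LinearMap.det_toLin', hP.1]

/-- the determinant of the diagonal part and the minors -/
lemma minor_le {P Q : Matrix (Fin n) (Fin n) K} (hr : r ≤ n) (hP : ∀ i j, v (P i j) ≤ 1)
    (hQ : ∀ i j, v (Q i j) ≤ 1) (d : Fin r → K) (s t : Fin r → Fin n) :
    v ((P * diagonal (ex n d) * Q).submatrix s t).det ≤ v (∏ i, d i) := by
  rw [ex_factor hr]
  have e : (P.submatrix id (Fin.castLE hr) * diagonal d * Q.submatrix (Fin.castLE hr) id).submatrix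
      s t = P.submatrix s (Fin.castLE hr) * diagonal d * Q.submatrix (Fin.castLE hr) t := rfl
  rw [e, det_mul, det_mul, det_diagonal, map_mul, map_mul]
  have h1 : v (P.submatrix s (Fin.castLE hr)).det ≤ 1 := det_le_one fun i j => hP _ _
  have h2 : v (Q.submatrix (Fin.castLE hr) t).det ≤ 1 := det_le_one fun i j => hQ _ _
  exact (mul_le_of_le_one_right' h2).trans (mul_le_of_le_one_left' h1)

lemma exists_minor_ge {P Q : Matrix (Fin n) (Fin n) K} (hn : 0 < n) (hr : r ≤ n) (hP : IsSLO v P)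
    (hQ : IsSLO v Q) (d : Fin r → K) :
    ∃ s t : Fin r → Fin n, v (∏ i, d i) ≤ v ((P * diagonal (ex n d) * Q).submatrix s t).det := by
  obtain ⟨s, t, h⟩ := exists_minor (v := v) hn (P⁻¹.submatrix (Fin.castLE hr) id)
    (P * diagonal (ex n d) * Q) (Q⁻¹.submatrix id (Fin.castLE hr)) (fun i j => hP.inv.2 _ _)
    (fun i j => hQ.inv.2 _ _)
  refine ⟨s, t, le_trans (le_of_eq ?_) h⟩
  have hPu : IsUnit P.det := by rw [hP.1]; exact isUnit_one
  have hQu : IsUnit Q.det := by rw [hQ.1]; exact isUnit_one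
  have e : P⁻¹.submatrix (Fin.castLE hr) id * (P * diagonal (ex n d) * Q) *
      Q⁻¹.submatrix id (Fin.castLE hr) =
      (P⁻¹ * (P * diagonal (ex n d) * Q) * Q⁻¹).submatrix (Fin.castLE hr) (Fin.castLE hr) := rfl
  have e2 : P⁻¹ * (P * diagonal (ex n d) * Q) * Q⁻¹ = diagonal (ex n d) := by
    rw [Matrix.mul_assoc P, Matrix.nonsing_inv_mul_cancel_left _ _ hPu,
      Matrix.mul_nonsing_inv_cancel_right _ _ hQu]
  have e3 : (diagonal (ex n d)).submatrix (Fin.castLE hr) (Fin.castLE hr) = diagonal d := by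
    rw [submatrix_diagonal _ _ (Fin.castLE_injective hr)]
    congr 1
    funext i
    simp [ex]
  rw [e, e2, e3, det_diagonal]

end

end Pool.Agent.P2a19dl
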