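import Pool.Agent.Lib.P2a19dl.Suff
import Pool.Agent.Lib.P2a19db.Criterion

/-!
Minors of the elements of the semigroup.
-/

set_option autoImplicit false

namespace Pool.Agent.P2a19dl

open Module Matrix Pool.Agent.P2a19db

variable {K : Type*} [Field K] {Γ₀ : Type*} [LinearOrderedCommGroupWithZero Γ₀] {v : Valuation K Γ₀}

lemma int_mul {α β γ : Type*} [Fintype β] {M : Matrix α β K} {N : Matrix β γ K}
    (hM : ∀ i j, v (M i j) ≤ 1) (hN : ∀ i j, v (N i j) ≤ 1) : ∀ i j, v ((M * N) i j) ≤ 1 := by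
  intro i j
  rw [Matrix.mul_apply]
  refine v.map_sum_le fun k _ => ?_
  rw [map_mul]
  exact mul_le_one' (hM i k) (hN k j)

lemma det_le_one {ι : Type*} [Fintype ι] [DecidableEq ι] {M : Matrix ι ι K}
    (hM : ∀ i j, v (M i j) ≤ 1) : v M.det ≤ 1 := by
  rw [det_apply]
  refine v.map_sum_le fun σ _ => ?_
  have h1 : v (∏ i, M (σ i) i) ≤ 1 := by
    rw [map_prod]
    exact Finset.prod_le_one' fun i _ => hM _ _
  rcases Int.units_eq_one_or (Equiv.Perm.sign σ) with h | h
  · rw [h, one_smul]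
    exact h1
  · rw [h, Units.neg_smul, one_smul, Valuation.map_neg]
    exact h1

lemma det_expand {n r : ℕ} (X : Matrix (Fin r) (Fin n) K) (B : Matrix (Fin n) (Fin r) K) :
    (X * B).det = ∑ s : Fin r → Fin n, (∏ i, X i (s i)) * (B.submatrix s id).det := by
  have e : (X * B) = fun i => ∑ k, X i k • B k := by
    funext i j
    rw [Matrix.mul_apply, Finset.sum_apply]
    rfl
  have h1 := (Matrix.detRowAlternating (R := K) (n := Fin r)).toMultilinearMap.map_sum
    (fun i k => X i k • B k)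
  have h2 : (X * B).det = (Matrix.detRowAlternating (R := K) (n := Fin r)).toMultilinearMap
      (fun i => ∑ k, X i k • B k) := by
    rw [← e]
    rfl
  rw [h2, h1]
  refine Finset.sum_congr rfl fun s _ => ?_
  rw [MultilinearMap.map_smul_univ, smul_eq_mul]
  rfl

lemma exists_rows {n r : ℕ} (hn : 0 < n) (X : Matrix (Fin r) (Fin n) K) (B : Matrix (Fin n) (Fin r) K)
    (hX : ∀ i j, v (X i j) ≤ 1) :
    ∃ s : Fin r → Fin n, v (X * B).det ≤ v (B.submatrix s id).det := by
  by_cases h0 : v (X * B).det = 0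
  · exact ⟨fun _ => ⟨0, hn⟩, by rw [h0]; exact zero_le⟩
  by_contra h
  push Not at h
  have h1 : v (X * B).det < v (X * B).det := by
    conv_lhs => rw [det_expand]
    refine v.map_sum_lt h0 fun s _ => ?_
    rw [map_mul]
    have h2 : v (∏ i, X i (s i)) ≤ 1 := by
      rw [map_prod]
      exact Finset.prod_le_one' fun i _ => hX _ _
    exact (mul_le_of_le_one_left' h2).trans_lt (h s)
  exact lt_irrefl _ h1

lemma exists_minor {n r : ℕ} (hn : 0 < n) (X : Matrix (Fin r) (Fin n) K) (A : Matrix (Fin n) (Fin n) K)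
    (Y : Matrix (Fin n) (Fin r) K) (hX : ∀ i j, v (X i j) ≤ 1) (hY : ∀ i j, v (Y i j) ≤ 1) :
    ∃ s t : Fin r → Fin n, v (X * A * Y).det ≤ v (A.submatrix s t).det := by
  obtain ⟨s, hs⟩ := exists_rows hn X (A * Y) hX
  obtain ⟨t, ht⟩ := exists_rows hn Yᵀ (A.submatrix s id)ᵀ (fun i j => hY j i)
  refine ⟨s, t, ?_⟩
  rw [Matrix.mul_assoc]
  refine hs.trans ?_
  have e1 : (A * Y).submatrix s id = (Yᵀ * (A.submatrix s id)ᵀ)ᵀ := by
    rw [transpose_mul, transpose_transpose, transpose_transpose]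
    rfl
  have e2 : (A.submatrix s id)ᵀ.submatrix t id = (A.submatrix s t)ᵀ := rfl
  rw [e1, det_transpose]
  refine ht.trans ?_
  rw [e2, det_transpose]

lemma ex_factor {n r : ℕ} (hr : r ≤ n) (d : Fin r → K) (P Q : Matrix (Fin n) (Fin n) K) :
    P * diagonal (ex n d) * Q =
      P.submatrix id (Fin.castLE hr) * diagonal d * Q.submatrix (Fin.castLE hr) id := by
  ext i j
  rw [Matrix.mul_apply, Matrix.mul_apply]
  symm
  refine Fintype.sum_of_injective (Fin.castLE hr) (Fin.castLE_injective hr) _ _ ?_ ?_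
  · intro k hk
    rw [mul_diagonal]
    have : ex n d k = 0 := by
      unfold ex
      rw [dif_neg]
      intro h
      exact hk ⟨⟨k, h⟩, Fin.ext rfl⟩
    rw [this, mul_zero, zero_mul]
  · intro k
    rw [mul_diagonal, mul_diagonal]
    have : ex n d (Fin.castLE hr k) = d k := by
      unfold ex
      rw [dif_pos (show ((Fin.castLE hr k : Fin n) : ℕ) < r from k.2)]
      rfl
    rw [this]
    rfl

/-- matrices whose `r × r` minors are controlled -/
def Ctl {n : ℕ} (v : Valuation K Γ₀) (r : ℕ) (δ : K) (B : Matrix (Fin n) (Fin n) K) : Prop :=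
  (∀ i j, v (B i j) ≤ 1) ∨
    ∃ (m : ℕ) (X : Matrix (Fin n) (Fin r) K) (M : Matrix (Fin r) (Fin r) K)
      (Y : Matrix (Fin r) (Fin n) K), (∀ i j, v (X i j) ≤ 1) ∧ (∀ i j, v (Y i j) ≤ 1) ∧
      B = X * M * Y ∧ v M.det ≤ v δ ^ m

lemma Ctl.mul {n r : ℕ} {δ : K} {B C : Matrix (Fin n) (Fin n) K} (hB : Ctl v r δ B)
    (hC : Ctl v r δ C) : Ctl v r δ (B * C) := by
  rcases hB with hB | ⟨m, X, M, Y, hX, hY, rfl, hM⟩
  · rcases hC with hC | ⟨m', X', M', Y', hX', hY', rfl, hM'⟩
    · exact Or.inl (int_mul hB hC)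
    · refine Or.inr ⟨m', B * X', M', Y', int_mul hB hX', hY', ?_, hM'⟩
      simp only [Matrix.mul_assoc]
  · rcases hC with hC | ⟨m', X', M', Y', hX', hY', rfl, hM'⟩
    · refine Or.inr ⟨m, X, M, Y * C, hX, int_mul hY hC, ?_, hM⟩
      simp only [Matrix.mul_assoc]
    · refine Or.inr ⟨m + m', X, M * (Y * X') * M', Y', hX, hY', ?_, ?_⟩
      · simp only [Matrix.mul_assoc]
      · rw [det_mul, det_mul, map_mul, map_mul, pow_add]
        have h1 : v (Y * X').det ≤ 1 := det_le_one (int_mul hY hX')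
        exact mul_le_mul' ((mul_le_of_le_one_right' h1).trans hM) hM'

lemma Ctl.minor {n r : ℕ} {δ : K} {B : Matrix (Fin n) (Fin n) K} (hB : Ctl v r δ B)
    (s t : Fin r → Fin n) : ∃ m : ℕ, v (B.submatrix s t).det ≤ v δ ^ m := by
  rcases hB with hB | ⟨m, X, M, Y, hX, hY, rfl, hM⟩
  · refine ⟨0, ?_⟩
    rw [pow_zero]
    exact det_le_one fun i j => hB _ _
  · refine ⟨m, ?_⟩
    have e : (X * M * Y).submatrix s t = X.submatrix s id * M * Y.submatrix id t := by
      rfl
    rw [e, det_mul, det_mul, map_mul, map_mul]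
    have h1 : v (X.submatrix s id).det ≤ 1 := det_le_one fun i j => hX _ _
    have h2 : v (Y.submatrix id t).det ≤ 1 := det_le_one fun i j => hY _ _
    exact (mul_le_of_le_one_right' h2).trans ((mul_le_of_le_one_left' h1).trans hM)

end Pool.Agent.P2a19dl
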