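import Pool.Agent.Lib.P2a19dl.Defs

/-!
Semigroups of matrices containing the matrices of determinant one over the valuation ring and one
diagonal matrix.
-/

set_option autoImplicit false

namespace Pool.Agent.P2a19dl

open Module Matrix

variable {K : Type*} [Field K] {Γ₀ : Type*} [LinearOrderedCommGroupWithZero Γ₀] {v : Valuation K Γ₀}

lemma slo_mul {ι : Type*} [Fintype ι] [DecidableEq ι] {M N : Matrix ι ι K} (hM : IsSLO v M)
    (hN : IsSLO v N) : IsSLO v (M * N) := by
  refine ⟨by rw [det_mul, hM.1, hN.1, one_mul], fun i j => ?_⟩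
  rw [Matrix.mul_apply]
  refine v.map_sum_le fun k _ => ?_
  rw [map_mul]
  exact mul_le_one' (hM.2 i k) (hN.2 k j)

lemma slo_transvection {ι : Type*} [Fintype ι] [DecidableEq ι] {i j : ι} (hij : i ≠ j) {c : K}
    (hc : v c ≤ 1) : IsSLO v (transvection i j c) := by
  refine ⟨det_transvection_of_ne i j hij c, fun k l => ?_⟩
  rw [transvection, Matrix.add_apply]
  refine (v.map_add_le ?_ ?_)
  · rw [Matrix.one_apply]
    split_ifs
    · rw [map_one]
    · rw [map_zero]; exact zero_le_one
  · rw [Matrix.single_apply]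
    split_ifs
    · exact hc
    · rw [map_zero]; exact zero_le_one

/-- Permutations are realised by conjugation with integral matrices of determinant one. -/
lemma perm_conj {n : ℕ} (hn : 0 < n) (τ : Equiv.Perm (Fin n)) :
    ∃ M M' : Matrix (Fin n) (Fin n) K, IsSLO v M ∧ IsSLO v M' ∧
      ∀ d : Fin n → K, M * diagonal d * M' = diagonal (d ∘ τ) := by
  let ε : K := ((Equiv.Perm.sign τ : ℤ) : K)
  have hε : ε * ε = 1 := by
    have : ((Equiv.Perm.sign τ : ℤ) * (Equiv.Perm.sign τ : ℤ)) = 1 := by
      rcases Int.units_eq_one_or (Equiv.Perm.sign τ) with h | h <;> rw [h] <;> rfl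
    simp only [ε]
    exact_mod_cast congrArg (fun z : ℤ => (z : K)) this
  have hvε : v ε ≤ 1 := by
    have h1 : v ε * v ε = 1 := by rw [← map_mul, hε, map_one]
    by_contra h
    push Not at h
    have := one_lt_mul_of_lt_of_le h h.le
    rw [h1] at this
    exact lt_irrefl _ this
  let e : Fin n → K := fun i => if i = ⟨0, hn⟩ then ε else 1
  have hve : ∀ i, v (e i) ≤ 1 := by
    intro i
    simp only [e]
    split_ifs
    · exact hvε
    · rw [map_one]
  have hprod : ∏ i, e i = ε := by
    simp [e]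
  have hperm : ∀ (σ : Equiv.Perm (Fin n)) (i j : Fin n), v ((Equiv.Perm.permMatrix K σ) i j) ≤ 1 := by
    intro σ i j
    rw [Equiv.Perm.permMatrix, PEquiv.toMatrix_apply]
    split_ifs
    · rw [map_one]
    · rw [map_zero]; exact zero_le_one
  refine ⟨diagonal e * Equiv.Perm.permMatrix K τ, Equiv.Perm.permMatrix K τ⁻¹ * diagonal e, ?_, ?_, ?_⟩
  · refine ⟨?_, ?_⟩
    · rw [det_mul, det_diagonal, hprod, det_permutation]
      exact hε
    · intro i j
      rw [diagonal_mul, map_mul]
      exact mul_le_one' (hve i) (hperm _ _ _)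
  · refine ⟨?_, ?_⟩
    · rw [det_mul, det_diagonal, hprod, det_permutation, Equiv.Perm.sign_inv]
      exact hε
    · intro i j
      rw [mul_diagonal, map_mul]
      exact mul_le_one' (hperm _ _ _) (hve j)
  · intro d
    have h1 : diagonal e * Equiv.Perm.permMatrix K τ * diagonal d *
        (Equiv.Perm.permMatrix K τ⁻¹ * diagonal e) =
        diagonal e * (Equiv.Perm.permMatrix K τ * (diagonal d * Equiv.Perm.permMatrix K τ⁻¹)) *
          diagonal e := by
      simp only [Matrix.mul_assoc]
    rw [h1, Equiv.Perm.permMatrix, Equiv.Perm.permMatrix, PEquiv.mul_toMatrix_toPEquiv,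
      PEquiv.toMatrix_toPEquiv_mul]
    ext i j
    rw [mul_diagonal, diagonal_mul, submatrix_apply, submatrix_apply]
    have h2 : (Equiv.symm τ⁻¹ : Equiv.Perm (Fin n)) = τ := by
      rw [← Equiv.Perm.inv_def, inv_inv]
    rw [h2]
    simp only [id_eq]
    by_cases hij : i = j
    · subst hij
      rw [diagonal_apply_eq, diagonal_apply_eq]
      have h3 : e i * e i = 1 := by
        simp only [e]
        split_ifs
        · exact hε
        · exact one_mul 1
      calc e i * d (τ i) * e i = d (τ i) * (e i * e i) := by ring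
        _ = d (τ i) := by rw [h3, mul_one]
    · rw [diagonal_apply_ne _ hij, diagonal_apply_ne _ (fun h => hij (τ.injective h)), mul_zero,
        zero_mul]

/-- a function on `Fin r` continued by zero -/
def ex (n : ℕ) {r : ℕ} (d : Fin r → K) : Fin n → K := fun i => if h : (i : ℕ) < r then d ⟨i, h⟩ else 0

lemma ex_mul {n r : ℕ} (d d' : Fin r → K) : diagonal (ex n d) * diagonal (ex n d') =
    diagonal (ex n (d * d')) := by
  rw [diagonal_mul_diagonal]
  congr 1
  funext i
  unfold ex
  split_ifs
  · rfl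
  · rw [mul_zero]

lemma ex_perm {n r : ℕ} (hr : r ≤ n) (d : Fin r → K) (σ : Equiv.Perm (Fin r)) :
    ∃ τ : Equiv.Perm (Fin n), ex n d ∘ τ = ex n (d ∘ σ) := by
  let f : Fin r ↪ Fin n := Fin.castLEEmb hr
  refine ⟨σ.viaFintypeEmbedding f, ?_⟩
  funext i
  by_cases hi : (i : ℕ) < r
  · have e1 : i = f ⟨i, hi⟩ := Fin.ext rfl
    have e2 : (σ.viaFintypeEmbedding f) i = f (σ ⟨i, hi⟩) := by
      conv_lhs => rw [e1]
      exact Equiv.Perm.viaFintypeEmbedding_apply_image _ _ _
    have e3 : ((f (σ ⟨i, hi⟩) : Fin n) : ℕ) < r := (σ ⟨i, hi⟩).2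
    simp only [Function.comp_apply, e2, ex, dif_pos hi, dif_pos e3]
    rfl
  · have e2 : (σ.viaFintypeEmbedding f) i = i := by
      apply Equiv.Perm.viaFintypeEmbedding_apply_notMem_range
      rintro ⟨j, rfl⟩
      exact hi j.2
    simp only [Function.comp_apply, e2, ex, dif_neg hi]

section semigroup

variable {n r : ℕ} {S : Set (Matrix (Fin n) (Fin n) K)}

lemma shrink_mem (hr : r < n) (hmul : ∀ x ∈ S, ∀ y ∈ S, x * y ∈ S)
    (hSL : ∀ P, IsSLO v P → P ∈ S) {d d' : Fin r → K} (hd : diagonal (ex n d) ∈ S)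
    (hd' : diagonal (ex n d') ∈ S) (i₀ : Fin r) {c : K} (hc : v c ≤ 1) :
    diagonal (ex n (fun i => d i * (if i = i₀ then c else 1) * d' i)) ∈ S := by
  let l : Fin n := ⟨r, hr⟩
  let k : Fin n := ⟨i₀, i₀.2.trans hr⟩
  have hkl : k ≠ l := by
    intro h
    have := congrArg Fin.val h
    simp only [k, l] at this
    exact absurd this i₀.2.ne
  have hc1 : v (c - 1) ≤ 1 := v.map_sub_le hc (by rw [map_one])
  have hM : IsSLO v (transvection k l (c - 1) * transvection l k 1) :=
    slo_mul (slo_transvection hkl hc1) (slo_transvection hkl.symm (by rw [map_one]))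
  have h1 := hmul _ (hmul _ hd _ (hSL _ hM)) _ hd'
  have hl : ∀ d : Fin r → K, ex n d l = 0 := by
    intro d
    simp [ex, l]
  have e : diagonal (ex n d) * (transvection k l (c - 1) * transvection l k 1) * diagonal (ex n d') =
      diagonal (ex n (fun i => d i * (if i = i₀ then c else 1) * d' i)) := by
    have e1 : transvection k l (c - 1) * transvection l k 1 =
        1 + single k l (c - 1) + single l k 1 + single k k (c - 1) := by
      rw [transvection, transvection, add_mul, mul_add, mul_add, one_mul, one_mul, mul_one,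
        single_mul_single_same, mul_one]
      abel
    rw [e1]
    ext i j
    rw [mul_diagonal, diagonal_mul]
    simp only [Matrix.add_apply, Matrix.one_apply, Matrix.single_apply, diagonal_apply]
    by_cases hil : l = i
    · subst hil
      rw [hl, zero_mul, zero_mul]
      by_cases hj : l = j
      · rw [if_pos hj, hl]
      · rw [if_neg hj]
    · by_cases hjl : l = j
      · subst hjl
        rw [hl, mul_zero, if_neg (fun h => hil h.symm)]
      · rw [if_neg (fun h : k = i ∧ l = j => hjl h.2), if_neg (fun h : l = i ∧ k = j => hil h.1)]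
        by_cases hij : i = j
        · subst hij
          rw [if_pos rfl, if_pos rfl]
          by_cases hik : k = i
          · subst hik
            rw [if_pos ⟨rfl, rfl⟩]
            have hk : ((k : Fin n) : ℕ) < r := i₀.2
            simp only [ex, dif_pos hk]
            have hk' : (⟨(k : ℕ), hk⟩ : Fin r) = i₀ := Fin.ext rfl
            rw [hk', if_pos rfl]
            ring
          · rw [if_neg (fun h => hik h.1)]
            simp only [ex]
            by_cases hi : (i : ℕ) < r
            · simp only [dif_pos hi]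
              have hi' : (⟨(i : ℕ), hi⟩ : Fin r) ≠ i₀ := by
                intro h
                exact hik (Fin.ext (congrArg Fin.val h).symm)
              rw [if_neg hi']
              ring
            · simp only [dif_neg hi]
              ring
        · rw [if_neg hij, if_neg hij, if_neg (fun h => hij (h.1.symm.trans h.2))]
          ring
  rw [e] at h1
  exact h1

lemma perm_mem (hr0 : 0 < r) (hr : r < n) (hmul : ∀ x ∈ S, ∀ y ∈ S, x * y ∈ S)
    (hSL : ∀ P, IsSLO v P → P ∈ S) {d : Fin r → K} (hd : diagonal (ex n d) ∈ S)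
    (σ : Equiv.Perm (Fin r)) : diagonal (ex n (d ∘ σ)) ∈ S := by
  obtain ⟨τ, hτ⟩ := ex_perm hr.le d σ
  obtain ⟨M, M', hM, hM', h⟩ := perm_conj (K := K) (v := v) (hr0.trans hr) τ
  rw [← hτ, ← h]
  exact hmul _ (hmul _ (hSL _ hM) _ hd) _ (hSL _ hM')

end semigroup

/-! ### the diagonal parts -/

section diagonals

variable {r : ℕ} {T : Set (Fin r → K)}

lemma T_mul (h1 : ∀ d ∈ T, ∀ d' ∈ T, ∀ (i₀ : Fin r) (c : K), v c ≤ 1 →
      (fun i => d i * (if i = i₀ then c else 1) * d' i) ∈ T) {d d' : Fin r → K} (hr0 : 0 < r)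
    (hd : d ∈ T) (hd' : d' ∈ T) : d * d' ∈ T := by
  have h := h1 d hd d' hd' ⟨0, hr0⟩ 1 (by rw [map_one])
  have e : (fun i => d i * (if i = (⟨0, hr0⟩ : Fin r) then (1 : K) else 1) * d' i) = d * d' := by
    funext i
    simp
  rw [e] at h
  exact h

lemma T_const (hr0 : 0 < r) (h1 : ∀ d ∈ T, ∀ d' ∈ T, ∀ (i₀ : Fin r) (c : K), v c ≤ 1 →
      (fun i => d i * (if i = i₀ then c else 1) * d' i) ∈ T)
    (h2 : ∀ d ∈ T, ∀ σ : Equiv.Perm (Fin r), d ∘ σ ∈ T) {d : Fin r → K} (hd : d ∈ T) :
    (fun _ : Fin r => ∏ i, d i) ∈ T := by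
  have : NeZero r := ⟨hr0.ne'⟩
  have key : ∀ s : Finset (Fin r), s.Nonempty → (∏ j ∈ s, d ∘ (Equiv.addRight j)) ∈ T := by
    intro s hs
    induction hs using Finset.Nonempty.cons_induction with
    | singleton j =>
      rw [Finset.prod_singleton]
      exact h2 d hd _
    | cons j s hj hs ih =>
      rw [Finset.prod_cons]
      exact T_mul h1 hr0 (h2 d hd _) ih
  have h := key Finset.univ Finset.univ_nonempty
  have e : (∏ j : Fin r, d ∘ (Equiv.addRight j)) = fun _ : Fin r => ∏ i, d i := by
    funext i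
    rw [Finset.prod_apply]
    simp only [Function.comp_apply, Equiv.coe_addRight]
    exact Fintype.prod_equiv (Equiv.addLeft i) _ _ (fun j => rfl)
  rw [e] at h
  exact h

lemma T_shrink (h1 : ∀ d ∈ T, ∀ d' ∈ T, ∀ (i₀ : Fin r) (c : K), v c ≤ 1 →
      (fun i => d i * (if i = i₀ then c else 1) * d' i) ∈ T) {z : K} (hz : (fun _ : Fin r => z) ∈ T)
    {c : Fin r → K} (hc : ∀ i, v (c i) ≤ 1) (s : Finset (Fin r)) :
    (fun i => (if i ∈ s then c i else 1) * z ^ (s.card + 1)) ∈ T := by
  induction s using Finset.cons_induction with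
  | empty =>
    have e : (fun i : Fin r => (if i ∈ (∅ : Finset (Fin r)) then c i else 1) *
        z ^ ((∅ : Finset (Fin r)).card + 1)) = fun _ : Fin r => z := by
      funext i
      simp
    rw [e]
    exact hz
  | cons j s hj ih =>
    have h := h1 _ ih _ hz j (c j) (hc j)
    have e : (fun i : Fin r => (if i ∈ s then c i else 1) * z ^ (s.card + 1) *
        (if i = j then c j else 1) * z) = fun i : Fin r =>
        (if i ∈ Finset.cons j s hj then c i else 1) * z ^ ((Finset.cons j s hj).card + 1) := by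
      funext i
      rw [Finset.card_cons]
      by_cases hij : i = j
      · subst hij
        rw [if_neg hj, if_pos rfl, if_pos (Finset.mem_cons_self _ _)]
        ring
      · have : (i ∈ Finset.cons j s hj) ↔ i ∈ s := by
          rw [Finset.mem_cons]
          exact or_iff_right hij
        simp only [this, if_neg hij]
        ring
    rw [e] at h
    exact h

/-- Every tuple lies in `T`. -/
theorem T_all (hr0 : 0 < r) (h1 : ∀ d ∈ T, ∀ d' ∈ T, ∀ (i₀ : Fin r) (c : K), v c ≤ 1 →
      (fun i => d i * (if i = i₀ then c else 1) * d' i) ∈ T)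
    (h2 : ∀ d ∈ T, ∀ σ : Equiv.Perm (Fin r), d ∘ σ ∈ T) {d : Fin r → K} (hd : d ∈ T)
    (hd0 : ∀ i, d i ≠ 0) (hC : ∀ x : K, ∃ m : ℕ, v x ≤ v (∏ i, d i) ^ m) (y : Fin r → K) :
    y ∈ T := by
  set δ := ∏ i, d i with hδ
  have hδ0 : δ ≠ 0 := Finset.prod_ne_zero_iff.2 fun i _ => hd0 i
  have hvδ0 : v δ ≠ 0 := (Valuation.ne_zero_iff v).2 hδ0
  have hge : 1 ≤ v δ := by
    by_contra h
    push Not at h
    obtain ⟨m, hm⟩ := hC δ⁻¹
    have h3 : v δ ^ m ≤ 1 := pow_le_one₀ zero_le h.le
    have h4 : 1 < v δ⁻¹ := by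
      rw [map_inv₀]
      exact (one_lt_inv₀ (zero_lt_iff.2 hvδ0)).2 h
    exact absurd (hm.trans h3) (not_le.2 h4)
  have hpow : ∀ k : ℕ, (fun _ : Fin r => δ ^ (k + 1)) ∈ T := by
    intro k
    induction k with
    | zero =>
      simp only [zero_add, pow_one]
      exact T_const hr0 h1 h2 hd
    | succ k ih =>
      have h3 := T_mul h1 hr0 ih (T_const hr0 h1 h2 hd)
      have e : ((fun _ : Fin r => δ ^ (k + 1)) * (fun _ : Fin r => ∏ i, d i)) =
          fun _ : Fin r => δ ^ (k + 1 + 1) := by
        funext i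
        rw [Pi.mul_apply, pow_succ δ (k + 1)]
      rw [e] at h3
      exact h3
  choose m hm using fun i => hC (y i)
  set k : ℕ := ∑ i, m i with hk
  set z : K := δ ^ (k + 1) with hz
  have hz0 : z ≠ 0 := pow_ne_zero _ hδ0
  have hle : ∀ i, v (y i) ≤ v (z ^ (r + 1)) := by
    intro i
    refine (hm i).trans ?_
    rw [hz, ← pow_mul, map_pow]
    refine pow_le_pow_right₀ hge ?_
    have h2 : m i ≤ k := Finset.single_le_sum (fun _ _ => Nat.zero_le _) (Finset.mem_univ i)
    nlinarith
  have h3 := T_shrink h1 (hpow k) (c := fun i => y i / z ^ (r + 1)) (fun i => by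
    rw [map_div₀]
    exact div_le_one_of_le₀ (hle i) zero_le) Finset.univ
  have e : (fun i : Fin r => (if i ∈ (Finset.univ : Finset (Fin r)) then y i / z ^ (r + 1) else 1) *
      z ^ ((Finset.univ : Finset (Fin r)).card + 1)) = y := by
    funext i
    rw [if_pos (Finset.mem_univ i), Finset.card_univ, Fintype.card_fin]
    exact div_mul_cancel₀ _ (pow_ne_zero _ hz0)
  rw [← e]
  exact h3

end diagonals

end Pool.Agent.P2a19dl
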